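import Mathlib

namespace Pool.Agent.Results.MP_a64928_ag.NoBound

open MvPolynomial Sum

theorem irr {σ : Type} (i j : σ) (hij : i ≠ j) (g : MvPolynomial σ ℂ) (n : ℕ) (hi : i ∉ g.vars)
    (hg : ¬ (X j : MvPolynomial σ ℂ) ∣ g) : Irreducible (X j ^ (n + 1) * X i + g) := by
  classical
  refine irreducible_mul_X_add _ _ _ (pow_ne_zero _ (X_ne_zero _)) (fun h => ?_) hi ?_
  · have := vars_pow _ _ h
    simp [hij] at this
  · refine IsRelPrime.pow_left ?_
    rwa [(X_prime (i := j) (R := ℂ)).irreducible.isRelPrime_iff_not_dvd]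

theorem deg_pos (τ : MvPolynomial (Fin 2) ℂ ≃ₐ[ℂ] MvPolynomial (Fin 2) ℂ) (i : Fin 2) :
    1 ≤ (τ (X i)).totalDegree := by
  by_contra h
  have h1 : (τ (X i)).totalDegree = 0 := by omega
  rw [totalDegree_eq_zero_iff_eq_C] at h1
  have h2 := congrArg τ.symm h1
  rw [τ.symm_apply_apply, ← algebraMap_eq, AlgEquiv.commutes, algebraMap_eq] at h2
  have h3 := congrArg totalDegree h2
  simp at h3

theorem result (d : ℕ) : ∃ G : MvPolynomial (Fin 2 ⊕ Fin 2) ℂ, Irreducible G ∧
    (¬ ∃ S T : Finset (Fin 2 → ℂ), S.card = 2 ∧ T.card = 2 ∧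
      ∀ u ∈ S, ∀ v ∈ T, eval (Sum.elim u v) G = 0) ∧
    ¬ ∃ (σ : MvPolynomial (Fin 2) ℂ ≃ₐ[ℂ] MvPolynomial (Fin 2) ℂ)
      (F : MvPolynomial (Fin 2) (MvPolynomial (Fin 2) ℂ)), F.totalDegree ≤ d ∧
      ∀ u v : Fin 2 → ℂ, eval (Sum.elim u v) G = 0 ↔
        eval (fun i => eval v (σ (X i))) (MvPolynomial.map (eval u) F) = 0 := by
  classical
  refine ⟨X (inr 0) ^ (0 + 1) * X (inl 0) + (X (inl 1) * X (inr 0) ^ (d + 1) * X (inr 1) + 1),
    irr _ _ (by simp) _ 0 ?_ ?_, ?_, ?_⟩
  · intro h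
    have h1 := vars_add_subset _ _ h
    rw [vars_one, Finset.union_empty] at h1
    rcases Finset.mem_union.mp (vars_mul _ _ h1) with h2 | h2
    · rcases Finset.mem_union.mp (vars_mul _ _ h2) with h3 | h3
      · simp at h3
      · have := vars_pow _ _ h3
        simp at this
    · simp at h2
  · rintro ⟨c, hc⟩
    have := congrArg (eval 0) hc
    simp at this
  · rintro ⟨S, T, hS, hT, h⟩
    obtain ⟨u, u', huu, rfl⟩ := Finset.card_eq_two.mp hS
    obtain ⟨v, v', hvv, rfl⟩ := Finset.card_eq_two.mp hT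
    have h1 := h u (by simp) v (by simp)
    have h2 := h u (by simp) v' (by simp)
    have h3 := h u' (by simp) v (by simp)
    have h4 := h u' (by simp) v' (by simp)
    simp only [zero_add, pow_one, map_add, map_mul, map_pow, eval_X, Sum.elim_inl, Sum.elim_inr,
      map_one] at h1 h2 h3 h4
    obtain ⟨w, hw⟩ : ∃ w, w = v 0 ^ (d + 1) * v 1 := ⟨_, rfl⟩
    obtain ⟨w', hw'⟩ : ∃ w', w' = v' 0 ^ (d + 1) * v' 1 := ⟨_, rfl⟩
    rw [mul_assoc, ← hw] at h1 h3
    rw [mul_assoc, ← hw'] at h2 h4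
    have hdet : v 0 * w' - v' 0 * w = 0 := by
      by_contra hd
      apply huu
      have e0 : (u 0 - u' 0) * (v 0 * w' - v' 0 * w) = 0 := by
        linear_combination w' * (h1 - h3) - w * (h2 - h4)
      have e1 : (u 1 - u' 1) * (v 0 * w' - v' 0 * w) = 0 := by
        linear_combination v 0 * (h2 - h4) - v' 0 * (h1 - h3)
      ext i
      fin_cases i
      · exact sub_eq_zero.mp ((mul_eq_zero.mp e0).resolve_right hd)
      · exact sub_eq_zero.mp ((mul_eq_zero.mp e1).resolve_right hd)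
    have e0 : v 0 = v' 0 := by linear_combination v 0 * h2 - v' 0 * h1 - u 1 * hdet
    have e1 : w = w' := by linear_combination w * h2 - w' * h1 + u 0 * hdet
    have hv : v 0 ≠ 0 := by
      intro h0
      rw [hw, h0] at h1
      simp at h1
    apply hvv
    rw [hw, hw', ← e0] at e1
    ext i
    fin_cases i
    · exact e0
    · exact mul_left_cancel₀ (pow_ne_zero _ hv) e1
  · rintro ⟨σ, F, hF, h⟩
    obtain ⟨f, hf⟩ : ∃ f, f = MvPolynomial.map (eval ![(0 : ℂ), 1]) F := ⟨_, rfl⟩
    have hfd : f.totalDegree ≤ d := by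
      rw [hf]
      exact (Finset.sup_mono (support_map_subset _ _)).trans hF
    have hev : ∀ v : Fin 2 → ℂ, eval (fun i => eval v (σ (X i))) f = eval v (σ f) := by
      intro v
      have e : (aeval (fun i => eval v (σ (X i))) : MvPolynomial (Fin 2) ℂ →ₐ[ℂ] ℂ) =
          (aeval v).comp (σ : MvPolynomial (Fin 2) ℂ →ₐ[ℂ] MvPolynomial (Fin 2) ℂ) := by
        ext i; simp
      exact DFunLike.congr_fun e f
    have key : ∀ v : Fin 2 → ℂ, v 0 ^ (d + 1) * v 1 + 1 = 0 ↔ eval v (σ f) = 0 := by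
      intro v
      rw [← hev, hf, ← h]
      simp
    have hirr : Irreducible (X 0 ^ (d + 1) * X 1 + 1 : MvPolynomial (Fin 2) ℂ) := by
      refine irr _ _ (by simp) _ d (by simp) ?_
      rintro ⟨c, hc⟩
      have := congrArg (eval 0) hc
      simp at this
    have hpr := (Ideal.span_singleton_prime hirr.ne_zero).mpr hirr.prime
    have hdv : (X 0 ^ (d + 1) * X 1 + 1 : MvPolynomial (Fin 2) ℂ) ∣ σ f := by
      rw [← Ideal.mem_span_singleton, ← IsPrime.vanishingIdeal_zeroLocus (K := ℂ) (Ideal.span _)]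
      intro v hv
      have := hv _ (Ideal.mem_span_singleton_self _)
      exact (key v).mp (by simpa using this)
    have hf0 : f ≠ 0 := by
      rintro rfl
      have := (key 0).mpr (by simp)
      simp at this
    have hdv2 := map_dvd σ.symm hdv
    rw [σ.symm_apply_apply, map_add, map_mul, map_pow, map_one] at hdv2
    have hle := (totalDegree_le_of_dvd_of_isDomain hdv2 hf0).trans hfd
    have ne : ∀ i, σ.symm (X i) ≠ 0 := fun i h0 => by
      have := deg_pos σ.symm i
      simp [h0] at this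
    have hpow : ∀ m : ℕ, m ≤ (σ.symm (X 0) ^ m).totalDegree := by
      intro m
      induction m with
      | zero => exact Nat.zero_le _
      | succ m ih =>
        rw [pow_succ, totalDegree_mul_of_isDomain (pow_ne_zero _ (ne 0)) (ne 0)]
        have := deg_pos σ.symm 0
        omega
    have h5 : d + 1 ≤ (σ.symm (X 0) ^ (d + 1) * σ.symm (X 1)).totalDegree := by
      rw [totalDegree_mul_of_isDomain (pow_ne_zero _ (ne 0)) (ne 1)]
      have := hpow (d + 1)
      omega
    rw [totalDegree_add_eq_left_of_totalDegree_lt (by rw [totalDegree_one]; omega)] at hle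
    omega

end Pool.Agent.Results.MP_a64928_ag.NoBound
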